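import Pool.Agent.H281R3.HT.BMain

open CategoryTheory AlgebraicGeometry

universe u v w

namespace Pool.Agent.Results.MP_0c8446_ag.InvariantClasses

open Pool.Agent.H914 Pool.Agent.H914.VarClass Pool.Agent.H914.VarClass.Obj
  Pool.Agent.H281R3.HT

/-- **Numerically trivial cycles on varieties with a commutative group of automorphisms**: let `A`
be a commutative group of automorphisms of finite exponent `e` of the variety `X`, fixing the class
of a divisor with hard Lefschetz, and let `S` be a conjugation inverting the `e`-th roots of unity.
If the non-trivial characters of the group have multiplicity at most one in `H^(2j)(X)`, where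
`2 j ≤ dim X`, then the class of every numerically trivial cycle of codimension `j` is invariant
under the group; if all characters have multiplicity at most one, then homological and numerical
equivalence coincide in codimension `j`, and under the conjecture `A` also in codimension
`dim X - j`. -/
theorem result {k : Type u} [Field k] {𝒱 : VarClass k} {ops : CycleOps 𝒱}
    (W : WeilCohomology.{u, v} ops) [IsAlgClosed W.K] (S : Conjugation W) (X : 𝒱.Obj)
    (D : X.Cycles) (hD : X.IsCyc 1 D) (hHL : HardLefschetz W X D) (A : PolarizedAction S X D)
    (j : ℕ) (hj : 2 * j ≤ X.dim) :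
    (MultiplicityOneOn (W.gr X (2 * j)) A.rho → ∀ z, NumTrivial ops X j z →
      ∀ g, A.rho g (W.cl X z) = W.cl X z) ∧
    (SimpleSpectrumOn (W.gr X (2 * j)) A.rho → (∀ z, NumTrivial ops X j z → W.cl X z = 0) ∧
      (LefschetzA W X D → ∀ z, NumTrivial ops X (X.dim - j) z → W.cl X z = 0)) :=
  ⟨fun hM _ hz g => A.invariant hD hHL hj hM hz g, fun hM =>
    ⟨fun _ hz => A.cl_eq_zero hD hHL hj hM hz, fun hA _ hz =>
      cl_eq_zero_dual hD hj hA (fun _ hz' => A.cl_eq_zero hD hHL hj hM hz') hz⟩⟩

end Pool.Agent.Results.MP_0c8446_ag.InvariantClasses
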